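import Mathlib
import Pool.Agent.Q81.IM.Stm

set_option autoImplicit false

open Complex Metric Set MeasureTheory

namespace Pool.Agent.Q265.IM

open Pool.Agent.Q81.IM

theorem abel_nonneg (w d : ℕ → ℝ) (hw : ∀ n, w (n + 1) ≤ w n)
    (hd : ∀ N : ℕ, 0 ≤ ∑ n ∈ Finset.range N, d n) (N : ℕ) :
    w N * ∑ n ∈ Finset.range N, d n ≤ ∑ n ∈ Finset.range N, w n * d n := by
  induction N with
  | zero => simp
  | succ N ih =>
    have h1 : w (N + 1) * ∑ n ∈ Finset.range (N + 1), d n ≤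
        w N * ∑ n ∈ Finset.range (N + 1), d n :=
      mul_le_mul_of_nonneg_right (hw N) (hd (N + 1))
    refine h1.trans ?_
    rw [Finset.sum_range_succ, Finset.sum_range_succ, mul_add]
    linarith

theorem coef_deriv (h : ℂ → ℂ) (n : ℕ) : coef (deriv h) n = ((n : ℂ) + 1) * coef h (n + 1) := by
  unfold coef
  rw [iteratedDeriv_succ', Nat.factorial_succ]
  have h1 : (n.factorial : ℂ) ≠ 0 := by exact_mod_cast Nat.factorial_ne_zero n
  have h2 : ((n : ℂ) + 1) ≠ 0 := by exact_mod_cast Nat.succ_ne_zero n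
  push_cast
  field_simp

theorem coef_zero' (h : ℂ → ℂ) : coef h 0 = h 0 := by
  unfold coef
  simp

theorem wt_anti (r : ℝ) (h0 : 0 < r) (h1 : r ≤ 1 / 2) (n : ℕ) :
    (((n + 1 : ℕ) : ℝ) + 1) ^ 2 * r ^ (2 * (n + 1)) ≤ ((n : ℝ) + 1) ^ 2 * r ^ (2 * n) := by
  have hr2 : r ^ 2 ≤ 1 / 4 := by nlinarith
  have h3 : r ^ (2 * (n + 1)) = r ^ (2 * n) * r ^ 2 := by
    rw [← pow_add]
    congr 1
  have hn : (0 : ℝ) ≤ (n : ℝ) := Nat.cast_nonneg n
  have h4 : (((n + 1 : ℕ) : ℝ) + 1) ^ 2 * r ^ 2 ≤ ((n : ℝ) + 1) ^ 2 := by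
    push_cast
    have h5 : ((n : ℝ) + 1 + 1) ^ 2 * r ^ 2 ≤ ((n : ℝ) + 1 + 1) ^ 2 * (1 / 4) :=
      mul_le_mul_of_nonneg_left hr2 (sq_nonneg _)
    have h6 : ((n : ℝ) + 1 + 1) ^ 2 * (1 / 4) ≤ ((n : ℝ) + 1) ^ 2 := by nlinarith
    linarith
  rw [h3]
  have h7 : (0 : ℝ) ≤ r ^ (2 * n) := pow_nonneg h0.le _
  calc (((n + 1 : ℕ) : ℝ) + 1) ^ 2 * (r ^ (2 * n) * r ^ 2)
      = ((((n + 1 : ℕ) : ℝ) + 1) ^ 2 * r ^ 2) * r ^ (2 * n) := by ring
    _ ≤ ((n : ℝ) + 1) ^ 2 * r ^ (2 * n) := mul_le_mul_of_nonneg_right h4 h7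

theorem go (hPA : S_PA) (hRO : S_RO) : S_GO := by
  intro f φ r hf hφ h0 h1
  have hr1 : r < 1 := by linarith
  have hg : DifferentiableOn ℂ (fun z => f (φ z)) (ball 0 1) := hf.comp hφ.diff hφ.maps
  have hf' : DifferentiableOn ℂ (deriv f) (ball 0 1) := hf.deriv isOpen_ball
  have hg' : DifferentiableOn ℂ (deriv (fun z => f (φ z))) (ball 0 1) := hg.deriv isOpen_ball
  have Sf := (hPA (deriv f) r hf' h0 hr1).tendsto_sum_nat
  have Sg := (hPA (deriv (fun z => f (φ z))) r hg' h0 hr1).tendsto_sum_nat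
  have key : ∀ N : ℕ,
      ∑ n ∈ Finset.range N, ‖coef (deriv (fun z => f (φ z))) n‖ ^ 2 * r ^ (2 * n) ≤
        ∑ n ∈ Finset.range N, ‖coef (deriv f) n‖ ^ 2 * r ^ (2 * n) := by
    intro N
    have hd : ∀ M : ℕ, 0 ≤ ∑ n ∈ Finset.range M,
        (‖coef f (n + 1)‖ ^ 2 - ‖coef (fun z => f (φ z)) (n + 1)‖ ^ 2) := by
      intro M
      have h2 := hRO f φ hf hφ M
      rw [Finset.sum_range_succ', Finset.sum_range_succ'] at h2
      have h3 : coef (fun z => f (φ z)) 0 = coef f 0 := by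
        rw [coef_zero', coef_zero', hφ.zero]
      rw [h3] at h2
      rw [Finset.sum_sub_distrib]
      linarith
    have h4 := abel_nonneg (fun n => ((n : ℝ) + 1) ^ 2 * r ^ (2 * n))
      (fun n => ‖coef f (n + 1)‖ ^ 2 - ‖coef (fun z => f (φ z)) (n + 1)‖ ^ 2)
      (fun n => wt_anti r h0 h1 n) hd N
    have h5 : 0 ≤ (((N : ℝ) + 1) ^ 2 * r ^ (2 * N)) * ∑ n ∈ Finset.range N,
        (‖coef f (n + 1)‖ ^ 2 - ‖coef (fun z => f (φ z)) (n + 1)‖ ^ 2) :=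
      mul_nonneg (mul_nonneg (sq_nonneg _) (pow_nonneg h0.le _)) (hd N)
    have h6 := h5.trans h4
    have h7 : ∀ (h : ℂ → ℂ) (n : ℕ), ‖coef (deriv h) n‖ ^ 2 * r ^ (2 * n) =
        (((n : ℝ) + 1) ^ 2 * r ^ (2 * n)) * ‖coef h (n + 1)‖ ^ 2 := by
      intro h n
      rw [coef_deriv, norm_mul]
      have h8 : ‖((n : ℂ) + 1)‖ = (n : ℝ) + 1 := by
        have h9 : ((n : ℂ) + 1) = (((n : ℝ) + 1 : ℝ) : ℂ) := by push_cast; rfl
        rw [h9, Complex.norm_real, Real.norm_eq_abs, abs_of_nonneg (by positivity)]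
      rw [h8]
      ring
    rw [Finset.sum_congr rfl (fun n _ => h7 (fun z => f (φ z)) n),
      Finset.sum_congr rfl (fun n _ => h7 f n), ← sub_nonneg, ← Finset.sum_sub_distrib]
    refine h6.trans (le_of_eq (Finset.sum_congr rfl (fun n _ => ?_)))
    ring
  have hlim := le_of_tendsto_of_tendsto' Sg Sf key
  have hpi : 0 < (2 * Real.pi)⁻¹ := by positivity
  exact le_of_mul_le_mul_left hlim hpi

end Pool.Agent.Q265.IM
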